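import Pool.Agent.U575.PL.Thm2

set_option autoImplicit false

/-!
# The shifted moments of zeta of all orders just off the critical line, with all their terms
-/

namespace Pool.Agent.Results.MP_07318d_nt.AllTermsOffTheLine

open MeasureTheory Filter Topology

/-- `∫_0^T |ζ(σ + it)|^{2k} dt` -/
noncomputable def Mom (k : ℕ) (σ T : ℝ) : ℝ := ∫ t in (0:ℝ)..T, ‖riemannZeta (σ + t * Complex.I)‖ ^ (2 * k)

/-- `∫_0^T ∏_{j ≤ k} ζ(σ + i(t + a_j)) ∏_{j ≤ l} ζ(σ - i(t + b_j)) dt` -/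
noncomputable def Shifted {k l : ℕ} (a : Fin k → ℝ) (b : Fin l → ℝ) (σ T : ℝ) : ℂ :=
  ∫ t in (0:ℝ)..T, (∏ j, riemannZeta (σ + (t + a j) * Complex.I)) * ∏ j, riemannZeta (σ - (t + b j) * Complex.I)

/-- the arithmetic function `n ↦ n^(-ic)` -/
noncomputable def power (c : ℝ) : ArithmeticFunction ℂ :=
  ⟨fun n => if n = 0 then 0 else (n : ℂ) ^ (-((c : ℂ) * Complex.I)), by simp⟩

/-- `τ_a(n) = ∑_{d_1 ⋯ d_k = n} ∏_j d_j^(-i a_j)`, the Dirichlet product of the functions `n^(-i a_j)` -/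
noncomputable def tau {k : ℕ} (a : Fin k → ℝ) : ArithmeticFunction ℂ := ∏ j, power (a j)

/-- the diagonal series `∑ τ_a(n) conj(τ_b(n)) n^(-2σ)` -/
noncomputable def Diag {k l : ℕ} (a : Fin k → ℝ) (b : Fin l → ℝ) (σ : ℝ) : ℂ :=
  ∑' n : ℕ, tau a n * (starRingEnd ℂ) (tau b n) * (((n : ℝ) ^ (-(2 * σ)) : ℝ) : ℂ)

/-- all shifts are at most `T` -/
def Small {k l : ℕ} (T : ℝ) (a : Fin k → ℝ) (b : Fin l → ℝ) : Prop := (∀ j, |a j| ≤ T) ∧ ∀ j, |b j| ≤ T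

/-- on the critical line: `∫_0^T |ζ(1/2 + it)|^{2k} dt = O(T e^{δ c(T)})` for every `δ > 0` -/
def Line (c : ℝ → ℝ) (k : ℕ) : Prop := ∀ δ : ℝ, 0 < δ → ∃ C : ℝ, ∀ᶠ T : ℝ in atTop,
  Mom k (1 / 2) T ≤ C * T * Real.exp (δ * c T)

/-- some power of the logarithm at every distance `δ c(T) / log T`, `δ > 0` -/
def Poly (c : ℝ → ℝ) (k : ℕ) : Prop := ∀ δ : ℝ, 0 < δ → ∃ A : ℝ, ∀ᶠ T : ℝ in atTop,
  Mom k (1 / 2 + δ * c T / Real.log T) T ≤ T * Real.log T ^ A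

/-- at every distance `d = δ c(T) / log T`, `δ > 0`, the shifted moments of order `2k` are `T` times the diagonal series,
up to `ε T (2d)^{-k²}`, uniformly in the shifts up to `T` -/
def Leading (c : ℝ → ℝ) (k : ℕ) : Prop := ∀ δ ε : ℝ, 0 < δ → 0 < ε → ∀ᶠ T : ℝ in atTop, ∀ a b : Fin k → ℝ,
  Small T a b → ‖Shifted a b (1 / 2 + δ * c T / Real.log T) T - T * Diag a b (1 / 2 + δ * c T / Real.log T)‖ ≤
    ε * (T * (2 * (δ * c T / Real.log T)) ^ (-((k : ℝ) ^ 2)))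

/-- the same, with `k` and `l` factors, up to `T (log T)^{-B}` for every `B` -/
def AllTerms (c : ℝ → ℝ) (k l : ℕ) : Prop := ∀ δ B : ℝ, 0 < δ → ∀ᶠ T : ℝ in atTop, ∀ (a : Fin k → ℝ) (b : Fin l → ℝ),
  Small T a b → ‖Shifted a b (1 / 2 + δ * c T / Real.log T) T - T * Diag a b (1 / 2 + δ * c T / Real.log T)‖ ≤
    T * Real.log T ^ (-B)

/-- a scale: `c` is nondecreasing on `[S, ∞)`, `c(T)/log log T → ∞`, `c(T)/log T → 0`, `c(2T) ≤ K c(T)` -/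
def Scale (c : ℝ → ℝ) (S K : ℝ) : Prop := MonotoneOn c (Set.Ici S) ∧
  Tendsto (fun T => c T / Real.log (Real.log T)) atTop atTop ∧
  Tendsto (fun T => c T / Real.log T) atTop (𝓝 0) ∧ 0 < K ∧ ∀ᶠ T : ℝ in atTop, c (2 * T) ≤ K * c T

/-- `∫_0^T |ζ(1/2 + it)|^{2k} dt = O(T (log T)^A)` for some `A` -/
def PowerLog (k : ℕ) : Prop := ∃ A : ℝ, ∀ᶠ T : ℝ in atTop, Mom k (1 / 2) T ≤ T * Real.log T ^ A

/-- for every `B` there is `C` such that, up to `T (log T)^{-B}`, the shifted moments are `T` times the diagonal series,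
uniformly for `C log log T / log T ≤ δ ≤ 1/16` and for the shifts up to `T` -/
def Uniform (k l : ℕ) : Prop := ∀ B : ℝ, ∃ C T0 : ℝ, 0 < C ∧ ∀ T : ℝ, T0 ≤ T → ∀ δ : ℝ,
  C * Real.log (Real.log T) / Real.log T ≤ δ → δ ≤ 1 / 16 → ∀ (a : Fin k → ℝ) (b : Fin l → ℝ), Small T a b →
  ‖Shifted a b (1 / 2 + δ) T - T * Diag a b (1 / 2 + δ)‖ ≤ T * Real.log T ^ (-B)

/-- at one distance `C log log T / log T` -/
def Near (k : ℕ) : Prop := ∃ C A : ℝ, 0 < C ∧ ∀ᶠ T : ℝ in atTop,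
  Mom k (1 / 2 + C * Real.log (Real.log T) / Real.log T) T ≤ T * Real.log T ^ A

/-- distances: `d → 0`, `d(T) log T / log log T → ∞` -/
def Adm (d : ℝ → ℝ) : Prop := Tendsto d atTop (𝓝 0) ∧
  Tendsto (fun T : ℝ => d T * Real.log T / Real.log (Real.log T)) atTop atTop

/-- the Lindelöf hypothesis -/
def Lindelof : Prop := ∀ ε : ℝ, 0 < ε → ∃ C : ℝ, ∀ t : ℝ,
  ‖riemannZeta (1 / 2 + t * Complex.I)‖ ≤ C * (1 + |t|) ^ ε

open Pool.Agent.U575

lemma Mom_eq (k : ℕ) (r T : ℝ) : Mom k (1 / 2 + r) T = RO.MR k r T := by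
  unfold Mom RO.MR Pool.Agent.N748.MG.mz Pool.Agent.N748.MG.pw
  congr 1
  funext t
  rw [← Real.rpow_natCast]
  push_cast
  congr 3

lemma Mom_half (k : ℕ) (T : ℝ) : Mom k (1 / 2) T = RO.MR k 0 T := by
  have h := Mom_eq k 0 T
  rwa [add_zero] at h

lemma Shifted_eq {k l : ℕ} (a : Fin k → ℝ) (b : Fin l → ℝ) (r T : ℝ) : Shifted a b (1 / 2 + r) T = PL.SM a b r T := by
  unfold Shifted PL.SM PL.G Pool.Agent.N748.MG.pw
  congr 1
  funext t
  congr 1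
  · refine Finset.prod_congr rfl fun j _ => ?_
    congr 1
    push_cast
    ring
  · refine Finset.prod_congr rfl fun j _ => ?_
    congr 1
    push_cast
    ring

lemma Diag_eq {k l : ℕ} (a : Fin k → ℝ) (b : Fin l → ℝ) (r : ℝ) : Diag a b (1 / 2 + r) = PL.diag a b r := by
  unfold Diag PL.diag
  refine tsum_congr fun n => ?_
  have e : -(2 * (1 / 2 + r)) = -1 - 2 * r := by ring
  rw [e]
  rfl

lemma line_iff (c : ℝ → ℝ) (k : ℕ) : Line c k ↔ RO.Line c k := by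
  unfold Line RO.Line
  simp only [Mom_half]

lemma poly_iff (c : ℝ → ℝ) (k : ℕ) : Poly c k ↔ RO.Poly c k := by
  unfold Poly RO.Poly
  simp only [Mom_eq]

lemma leading_iff (c : ℝ → ℝ) (k : ℕ) : Leading c k ↔ PL.Lead c k := by
  unfold Leading PL.Lead
  simp only [Shifted_eq, Diag_eq]
  rfl

lemma all_iff (c : ℝ → ℝ) (k l : ℕ) : AllTerms c k l ↔ PL.Full c k l := by
  unfold AllTerms PL.Full
  simp only [Shifted_eq, Diag_eq]
  rfl

lemma sc_of {c : ℝ → ℝ} {S K : ℝ} (h : Scale c S K) : PL.S1 c S K := ⟨h.1, h.2.1, h.2.2.1, h.2.2.2.1, h.2.2.2.2⟩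

lemma pow_iff (k : ℕ) : PowerLog k ↔ PL.PLine k := by
  unfold PowerLog PL.PLine
  simp only [Mom_half]

lemma uni_iff (k l : ℕ) : Uniform k l ↔ PL.PFull k l := by
  unfold Uniform PL.PFull
  simp only [Shifted_eq, Diag_eq]
  rfl

lemma near_iff (k : ℕ) : Near k ↔ PL.PPoly k := by
  unfold Near PL.PPoly
  simp only [Mom_eq]
  rfl

/-- **The shifted moments of zeta of all orders just off the critical line, with all their terms.** -/
theorem result :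
    -- the moments on the line and the shifted moments just off the line
    (∀ (c : ℝ → ℝ) (S K : ℝ), Scale c S K →
      (∀ k : ℕ, 1 ≤ k → List.TFAE [Line c k, Leading c k, Poly c k] ∧
        (Line c k → ∀ i j : ℕ, i + j < 2 * k → AllTerms c i j)) ∧
      List.TFAE [∀ k : ℕ, 1 ≤ k → Line c k, ∀ i j : ℕ, AllTerms c i j, ∀ k : ℕ, 1 ≤ k → Leading c k]) ∧
    -- powers of the logarithm
    (∀ k i j : ℕ, i + j < 2 * k → PowerLog k → Uniform i j) ∧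
    List.TFAE [∀ k : ℕ, 1 ≤ k → PowerLog k, ∀ i j : ℕ, Uniform i j, ∀ k : ℕ, 1 ≤ k → Near k] ∧
    -- the Lindelöf hypothesis
    List.TFAE [
      Lindelof,
      ∃ d : ℝ → ℝ, Adm d ∧ ∀ (k l : ℕ) (B : ℝ), ∀ᶠ T : ℝ in atTop, ∀ (a : Fin k → ℝ) (b : Fin l → ℝ), Small T a b →
        ‖Shifted a b (1 / 2 + d T) T - T * Diag a b (1 / 2 + d T)‖ ≤ T * Real.log T ^ (-B),
      ∃ d : ℝ → ℝ, Adm d ∧ ∀ k : ℕ, 1 ≤ k → ∃ A : ℝ, ∀ᶠ T : ℝ in atTop,
        Mom k (1 / 2 + d T) T ≤ T * Real.log T ^ A] := by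
  refine ⟨fun c S K h => ⟨fun k hk => ⟨?_, ?_⟩, ?_⟩, ?_, ?_, ?_⟩
  · rw [line_iff, leading_iff, poly_iff]
    exact PL.tfae1 (sc_of h) hk
  · intro hL i j hij
    rw [all_iff]
    exact PL.line_full (sc_of h) ((line_iff c k).1 hL) hij
  · simp only [line_iff, leading_iff, all_iff]
    exact PL.tfae2 (sc_of h)
  · intro k i j hij h
    rw [uni_iff]
    exact PL.pline_pfull hij ((pow_iff k).1 h)
  · simp only [pow_iff, uni_iff, near_iff]
    exact PL.tfae_pl2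
  · simp only [Shifted_eq, Diag_eq, Mom_eq]
    exact PL.LH_pl

end Pool.Agent.Results.MP_07318d_nt.AllTermsOffTheLine
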