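import Pool.Agent.U260.GZ.Fin

/-!
# Moments of zeta of all orders at generic dilations, with a power saving

For almost all `l = (l_1, …, l_k)`, more precisely for all `l` outside a set of Hausdorff dimension smaller than `k`,

`∫_0^T ∏_j |ζ(1/2 + i l_j t)|² dt = ∫_0^T ∏_j (log (l_j t / 2π) + 2γ) dt + O(T^(1-δ))`

with an absolute constant `δ > 0`, for every number `k` of factors; the same holds with any weight `F(t)` whose mean
square over `[0, T]` is at most `T^(1+o(1))`, and also with the additional factor `|ζ(1/2 + it)|²`, so that the moment of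
order `2k + 2` with one fixed factor and `k` dilated factors is obtained. Unconditional.

Proof (project GDZ of this team, completing a plan of the library, `Pool.Agent.N879.GD.Stm`): the Mellin transform of
`|ζ(1/2+iu)|² - log (u/2π) - 2γ` against smooth weights at `T` is `O(T^(-δ))` uniformly in the spectral parameter
(approximate functional equation, the method of van der Corput for the phase `ω log log (n/m)`), so by Plancherel's
theorem for the Mellin transform the mean square of the error over one dilation has a power saving; the factors are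
replaced one after the other, with the fourth moment of zeta for the others; the set of bad parameters at the scale
`2^n` has measure `2^(-κ n)` and is a union of balls of radius `2^(-K n)`.

Authors: helper260 (plan, Cor, assembly), helper858, helper678, helper394, helper739, helper364, helper603, helper894,
helper67, helper460, helper591, helper187, helper580, helper8, helper941, helper72, helper221, helper934, helper928,
helper643, helper511, helper301, helper263, helper354; helper407 and the author of the plan (helper879) in the library.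
-/

set_option autoImplicit false

namespace Pool.Agent.Results.MP_07318d_nt.GenericDilations

open MeasureTheory Set

noncomputable section

/-- `|ζ(1/2 + it)|²` -/
def Z (t : ℝ) : ℝ := ‖riemannZeta (1 / 2 + Complex.I * t)‖ ^ 2

/-- `log (t/2π) + 2γ`, the density of the main term of the mean square of zeta -/
def D (t : ℝ) : ℝ := Real.log (t / (2 * Real.pi)) + 2 * Real.eulerMascheroniConstant

/-- `F` is a weight: measurable, and for every `ε > 0` there is `C` with `∫_0^T |F|² ≤ C T^(1+ε)` for all `T ≥ 1` -/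
def IsWeight (F : ℝ → ℂ) : Prop := Measurable F ∧ ∀ ε : ℝ, 0 < ε → ∃ C : ℝ, 0 < C ∧ ∀ T : ℝ, 1 ≤ T →
  ∫⁻ t in Ioc 0 T, ‖F t‖ₑ ^ 2 ≤ ENNReal.ofReal (C * T ^ (1 + ε))

/-- **Moments of zeta at generic dilations.** There is an absolute constant `δ > 0` such that for every `k ≥ 1` there is
`s < k` with the following properties.

(1) For every weight `F` there is a set `E` of Hausdorff dimension at most `s` in `ℝ^k` such that for all
`l = (l_1, …, l_k)` with positive entries which do not lie in `E` the integrals of `F(t) ∏_j |ζ(1/2 + i l_j t)|²` and of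
`F(t) ∏_j (log (l_j t/2π) + 2γ)` over `[0, T]` differ by `O(T^(1-δ))`.

(2) There is a set `E` of Hausdorff dimension at most `s` in `ℝ^k` such that for all `l` with positive entries which do
not lie in `E` the integrals of `|ζ(1/2 + it)|² ∏_j |ζ(1/2 + i l_j t)|²` and of
`(log (t/2π) + 2γ) ∏_j (log (l_j t/2π) + 2γ)` over `[0, T]` differ by `O(T^(1-δ))`. -/
theorem result : ∃ δ : ℝ, 0 < δ ∧ δ < 1 ∧ ∀ k : ℕ, 0 < k → ∃ s : ℝ, 0 < s ∧ s < k ∧
    (∀ F : ℝ → ℂ, IsWeight F → ∃ E : Set (Fin k → ℝ), dimH E ≤ ENNReal.ofReal s ∧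
      ∀ l : Fin k → ℝ, l ∉ E → (∀ j, 0 < l j) → ∃ C : ℝ, ∀ T : ℝ, 1 ≤ T →
        ‖(∫ t in (0 : ℝ)..T, F t * ((∏ j, Z (l j * t) : ℝ) : ℂ)) -
          ∫ t in (0 : ℝ)..T, F t * ((∏ j, D (l j * t) : ℝ) : ℂ)‖ ≤ C * T ^ (1 - δ)) ∧
    ∃ E : Set (Fin k → ℝ), dimH E ≤ ENNReal.ofReal s ∧
      ∀ l : Fin k → ℝ, l ∉ E → (∀ j, 0 < l j) → ∃ C : ℝ, ∀ T : ℝ, 1 ≤ T →
        |(∫ t in (0 : ℝ)..T, Z t * ∏ j, Z (l j * t)) - ∫ t in (0 : ℝ)..T, D t * ∏ j, D (l j * t)| ≤
          C * T ^ (1 - δ) := by
  obtain ⟨δ₁, h₁, h₁', hA⟩ := Pool.Agent.U260.GZ.fin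
  obtain ⟨δ₂, h₂, h₂', hB⟩ := Pool.Agent.U260.GZ.with_one Pool.Agent.U260.GZ.fin Pool.Agent.U260.GZ.a_INT
    Pool.Agent.N879.GD.t_CRU Pool.Agent.N879.GD.t_M4'
  have hpow : ∀ (δ : ℝ), min δ₁ δ₂ ≤ δ → ∀ (C T : ℝ), 1 ≤ T → C * T ^ (1 - δ) ≤ |C| * T ^ (1 - min δ₁ δ₂) := by
    intro δ hδ C T hT
    have h0 : (0 : ℝ) ≤ T ^ (1 - δ) := Real.rpow_nonneg (by linarith) _
    calc C * T ^ (1 - δ) ≤ |C| * T ^ (1 - δ) := mul_le_mul_of_nonneg_right (le_abs_self C) h0
      _ ≤ _ := mul_le_mul_of_nonneg_left (Real.rpow_le_rpow_of_exponent_le hT (by linarith)) (abs_nonneg C)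
  refine ⟨min δ₁ δ₂, lt_min h₁ h₂, lt_of_le_of_lt (min_le_left _ _) h₁', fun k hk => ?_⟩
  obtain ⟨s₁, hs₁, hs₁', hA⟩ := hA k hk
  obtain ⟨s₂, hs₂, hs₂', E₂, hE₂, hB⟩ := hB k hk
  refine ⟨max s₁ s₂, lt_max_of_lt_left hs₁, max_lt hs₁' hs₂', fun F hF => ?_, E₂,
    hE₂.trans (ENNReal.ofReal_le_ofReal (le_max_right _ _)), fun l hl hl0 => ?_⟩
  · obtain ⟨E, hE, h⟩ := hA F hF
    refine ⟨E, hE.trans (ENNReal.ofReal_le_ofReal (le_max_left _ _)), fun l hl hl0 => ?_⟩
    obtain ⟨C, hC⟩ := h l hl hl0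
    exact ⟨|C|, fun T hT => (hC T hT).trans (hpow δ₁ (min_le_left _ _) C T hT)⟩
  · obtain ⟨C, hC⟩ := hB l hl hl0
    exact ⟨|C|, fun T hT => (hC T hT).trans (hpow δ₂ (min_le_right _ _) C T hT)⟩

end

end Pool.Agent.Results.MP_07318d_nt.GenericDilations
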