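import Pool.Agent.U345.ZM4

/-!
# The number of zeros of zeta near a point, in the measure of the `2k`-th moment

Let `k ≥ 1`. For `1 ≤ U ≤ T / log T` let `moment k T U` be the integral of `|ζ(1/2 + iy)|^(2k)` over `y` with the Gaussian weight
`exp (-((y - T) / U)^2)`, i.e. essentially over the interval of length about `U` around `T` (`U` may be bounded, e.g. `U = 1`).

Theorem (unconditional). Let `A > 0` and let `N(y)` be the number of all zeros of zeta, on or off the critical line and counted with
multiplicity, in the disc of radius `A / log T` around `1/2 + iy`. With respect to the measure `|ζ(1/2 + iy)|^(2k) exp (-((y - T) / U)^2) dy`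
divided by the moment, the tails of `N` decay faster than every exponential: for every `λ` there is `C` such that the measure of
`{N ≥ n}` is at most `C exp (-λ n)` for all `n`, all `T ≥ T₀` and uniformly in `U`. More generally, uniformly in the complex number `a`,
the same is true for the number of solutions of `ζ(s) = a` and the measure `|ζ(1/2 + iy) - a|^(2k) exp (-((y - T) / U)^2) dy`, divided by
`(1 + |a|^(2k))` times the moment.

Pointwise only `N(y) = O(log T)` is known. The bound for the tails is uniform in windows as short as `U = 1`, where with respect to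
`dy` only the mean of `N` is known to be bounded. So the part of the moments of all orders `2k` which comes from points with many
zeros near by, on the scale `1 / log T` of the mean distance, is negligible, unconditionally and although not even the order of magnitude of
the moments is known for `k ≥ 3`.

Proof. With `f_a(s) = (s - 1)(ζ(s) - a) exp ((s - 1/2) (log T)/2 + (s - 1/2 - iT)^2 / (2 k U^2))`, if `f_a` has `n` zeros in the disc of radius
`A / log T`, then `|f_a| ≤ (2A / (R - A))^n max |f_a|` at its centre, with the maximum over the circle of radius `R / log T`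
(maximum principle for the quotient by the product of the `s - ρ`). It remains to bound the sum over the cells of length `1 / log T` of the
maxima of `|f_0|^(2k)` over boxes of size `R / log T` around the critical line by a constant times `log T` times the mean square on the
line: this follows from Sobolev's inequality in both directions and the mean square inequalities for all derivatives of `f_0^k` on all lines
near the critical line, which come from convexity and the functional equation.
-/

set_option autoImplicit false

namespace Pool.Agent.Results.MP_07318d_nt.ManyZerosInADisc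

open MeasureTheory Filter Topology

/-- the point `1/2 + iy` -/
noncomputable def point (y : ℝ) : ℂ := ((1 / 2 : ℝ) : ℂ) + y * Complex.I

/-- the Gaussian weight of the window of width `U` at the height `T` -/
noncomputable def weight (T U y : ℝ) : ℝ := Real.exp (-((y - T) / U) ^ 2)

/-- the moment `∫ |ζ(1/2 + iy)|^(2k) exp (-((y - T) / U)^2) dy` -/
noncomputable def moment (k : ℕ) (T U : ℝ) : ℝ := ∫ y : ℝ, ‖riemannZeta (point y)‖ ^ (2 * k) * weight T U y

/-- `ζ` takes the value `a` at least `n` times, counted with multiplicity, in the closed disc with centre `c` and radius `r`: one can split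
off `n` linear factors with zeros in the disc from `ζ - a`, with a quotient which is holomorphic outside the point `1` -/
def Takes (a : ℂ) (n : ℕ) (c : ℂ) (r : ℝ) : Prop :=
  ∃ (ρ : Fin n → ℂ) (h : ℂ → ℂ), (∀ i, ‖ρ i - c‖ ≤ r) ∧ DifferentiableOn ℂ h {(1 : ℂ)}ᶜ ∧
    ∀ s : ℂ, s ≠ 1 → riemannZeta s - a = (∏ i, (s - ρ i)) * h s

/-- Let `k ≥ 1`, `A > 0` and `λ ≥ 0`. There are `C` and `T₀` such that for all `T ≥ T₀`, all `U` with `1 ≤ U ≤ T / log T`, all complex `a`,
all `n` and all measurable sets `E` of numbers `y` such that `ζ` takes the value `a` at least `n` times in the disc of radius `A / log T`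
around `1/2 + iy`, the integral of `|ζ(1/2 + iy) - a|^(2k)` over `E` with the weight is at most `C exp (-λ n) (1 + |a|^(2k))` times the
moment. -/
theorem result (k : ℕ) (hk : 1 ≤ k) (A lam : ℝ) (hA : 0 < A) (hlam : 0 ≤ lam) :
    ∃ C T₀ : ℝ, ∀ T : ℝ, T₀ ≤ T → ∀ U : ℝ, 1 ≤ U → U ≤ T / Real.log T →
      ∀ (a : ℂ) (n : ℕ) (E : Set ℝ), MeasurableSet E → (∀ y ∈ E, Takes a n (point y) (A / Real.log T)) →
        ∫ y in E, ‖riemannZeta (point y) - a‖ ^ (2 * k) * weight T U y ≤
          C * Real.exp (-(lam * n)) * (1 + ‖a‖ ^ (2 * k)) * moment k T U := by
  obtain ⟨C, -, h1⟩ := U345Z.takesZ k hk hA hlam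
  obtain ⟨T1, hT1⟩ := eventually_atTop.mp h1
  refine ⟨C, max 3 T1, fun T hT U hU1 hU2 a n E hE hE' => ?_⟩
  exact hT1 T (le_of_max_le_right hT) U ⟨le_of_max_le_left hT, hU1, hU2⟩ a n E hE hE'

end Pool.Agent.Results.MP_07318d_nt.ManyZerosInADisc
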