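import Pool.Agent.R461.HM.Meas
import Pool.Agent.U52.RH.Heights
import Pool.Agent.U52.RH.WalkHeights
import Pool.Agent.U52.RH.ExpLaw

set_option autoImplicit false

/-!
# MP_07318d_nt: all terms of the 2k-th moments of zeta at random heights, with a power saving

Almost surely, for every `k`, all shifts `a, b ∈ ℝ^k` (in particular `a = b = 0`) and all band-limited weights, the mean of
`Z_{a+u,b-u}(t) = ∏ ζ(1/2 + i(t+a_j+u)) ζ(1/2 - i(t+b_j-u))` over `J ≥ T^κ` random heights `t` (independent samples, or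
consecutive points of a random walk, for instance a Poisson process), averaged over the common shift `u` against `φ(u log T)`,
is the full diagonal term, with all terms of lower order, up to a power saving.
-/

namespace Pool.Agent.Results.MP_07318d_nt.RandomHeights

open Complex MeasureTheory Filter Topology Set ProbabilityTheory
open scoped ContDiff ENNReal
open Pool.Agent.R461.HM (Heights)

noncomputable section

/-- the product of the shifted values of zeta -/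
def Z {k : ℕ} (a b : Fin k → ℝ) (t : ℝ) : ℂ :=
  ∏ j, riemannZeta (1 / 2 + I * (t + a j)) * riemannZeta (1 / 2 - I * (t + b j))

/-- the divisor function with exponents: the sum of `∏ d_j^(l_j)` over `d_1 ⋯ d_k = n` -/
def tau {k : ℕ} (l : Fin k → ℂ) (n : ℕ) : ℂ := ∑ f ∈ Nat.finMulAntidiag k n, ∏ j, (f j : ℂ) ^ (l j)

/-- `φ(v) = ∫ ψ(ξ) e^{iξv} dξ` -/
def phi (ψ : ℝ → ℂ) (v : ℝ) : ℂ := ∫ ξ : ℝ, ψ ξ * exp (I * ξ * v)

/-- the full diagonal term; for `a = b = 0` it is `2π / log T` times the sum of `d_k(n)² / n ψ(2 log n / log T)` -/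
def mainTerm {k : ℕ} (a b : Fin k → ℝ) (ψ : ℝ → ℂ) (T : ℝ) : ℂ :=
  2 * Real.pi / Real.log T * ∑' n : ℕ, tau (fun j => -(I * a j)) n * tau (fun j => I * b j) n / n *
    ψ (2 * Real.log n / Real.log T)

/-- `F T ν` says that the probability measure `ν` belongs to the family of distributions of heights at `T`. The family obeys the
recipe up to the exponent `m`: for all `k`, all shifts `a, b`, all `θ, η ≥ 0` with `θ + η < m` and all smooth compactly supported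
`ψ` vanishing above `2θ` the average over `u`, with weight `φ(u log T)`, of the `ν`-mean of `Z_{a+u, b-u}` is the main term up to
`T^(-η)`, for all large `T` and all members `ν` of the family at `T`. -/
def Recipe (m : ℝ) (F : ℝ → Measure ℝ → Prop) : Prop :=
  ∀ (k : ℕ) (a b : Fin k → ℝ) (θ η : ℝ), 0 ≤ θ → 0 ≤ η → θ + η < m → ∀ ψ : ℝ → ℂ, ContDiff ℝ ∞ ψ → HasCompactSupport ψ →
    (∀ ξ : ℝ, 2 * θ < ξ → ψ ξ = 0) → ∃ T₀ : ℝ, ∀ T : ℝ, T₀ ≤ T → ∀ ν : Measure ℝ, F T ν →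
      Integrable (fun u : ℝ => phi ψ (Real.log T * u) * ∫ t, Z (fun j => a j + u) (fun j => b j - u) t ∂ν) ∧
      ‖(∫ u : ℝ, phi ψ (Real.log T * u) * ∫ t, Z (fun j => a j + u) (fun j => b j - u) t ∂ν) - mainTerm a b ψ T‖ ≤ T ^ (-η)

/-- the uniform distribution on the finite sequence `t_0, ..., t_{J-1}` -/
def unif (J : ℕ) (t : ℕ → ℝ) : Measure ℝ := ((J : ℝ≥0∞)⁻¹) • ∑ j ∈ Finset.range J, Measure.dirac (t j)

/-- `X_0, X_1, ...` are independent with the same law `μ` on `[1, 2]`, and the Fourier transform of `μ` is `O(|u|^(-s))` -/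
structure Samples (s : ℝ) {Ω : Type} [MeasurableSpace Ω] (P : Measure Ω) (X : ℕ → Ω → ℝ) : Prop where
  meas : ∀ j, Measurable (X j)
  indep : iIndepFun X P
  law : ∃ μ : Measure ℝ, (∀ j, P.map (X j) = μ) ∧ (∀ᵐ x ∂μ, x ∈ Icc (1:ℝ) 2) ∧
    ∃ K : ℝ, ∀ u : ℝ, 1 ≤ |u| → ‖∫ x : ℝ, exp (I * (u * x)) ∂μ‖ ≤ K * |u| ^ (-s)

/-- the law of the steps: integrable with positive mean, and `|1 - φ(v)| ≥ c min (1, |v|)` for the characteristic function -/
def StepLaw (μ : Measure ℝ) : Prop :=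
  IsProbabilityMeasure μ ∧ Integrable (fun x : ℝ => x) μ ∧ 0 < ∫ x, x ∂μ ∧
    ∃ c : ℝ, 0 < c ∧ ∀ v : ℝ, c * min 1 |v| ≤ ‖1 - ∫ x : ℝ, exp (I * (v * x)) ∂μ‖

/-- the steps `X_0, X_1, ...` are independent with the same law, as in `StepLaw` -/
structure Steps {Ω : Type} [MeasurableSpace Ω] (P : Measure Ω) (X : ℕ → Ω → ℝ) : Prop where
  meas : ∀ j, Measurable (X j)
  indep : iIndepFun X P
  law : ∃ μ : Measure ℝ, (∀ j, P.map (X j) = μ) ∧ StepLaw μ

lemma phi_eq (ψ : ℝ → ℂ) (v : ℝ) : phi ψ v = W182.KO.P ψ (v * I) := by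
  unfold phi W182.KO.P
  congr 1; funext ξ
  congr 2
  ring

lemma Z_eq {k : ℕ} (a b : Fin k → ℝ) (u t : ℝ) : Z (fun j => a j + u) (fun j => b j - u) t =
    W182.KO.ZP a (1 / 2 + (u + t : ℝ) * I) * W182.KO.ZP (fun j => -b j) (1 / 2 + (u - t : ℝ) * I) := by
  unfold Z W182.KO.ZP
  rw [← Finset.prod_mul_distrib]
  refine Finset.prod_congr rfl fun j _ => ?_
  congr 2
  · push_cast; ring
  · push_cast; ring

lemma int_eq {k : ℕ} (a b : Fin k → ℝ) (ψ : ℝ → ℂ) (T : ℝ) (ν : Measure ℝ) :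
    (fun u : ℝ => phi ψ (Real.log T * u) * ∫ t, Z (fun j => a j + u) (fun j => b j - u) t ∂ν) =
        (fun y : ℝ => W182.KO.P ψ (Real.log T * y * I) * (∫ t, W182.KO.ZP a (1 / 2 + (y + t : ℝ) * I) *
          W182.KO.ZP (fun j => -b j) (1 / 2 + (y - t : ℝ) * I) ∂ν)) := by
  funext u
  simp only [Z_eq]
  rw [phi_eq]
  congr 2
  push_cast; ring

lemma main_eq {k : ℕ} (a b : Fin k → ℝ) (ψ : ℝ → ℂ) (T : ℝ) : mainTerm a b ψ T = ((2 * Real.pi / Real.log T : ℝ) : ℂ) *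
    ∑' n : ℕ, W182.KO.tau (fun j => -(a j * I)) n * W182.KO.tau (fun j => -(((-b j : ℝ) : ℂ) * I)) n / n *
      ψ (2 * Real.log n / Real.log T) := by
  unfold mainTerm
  have e3 : (fun j : Fin k => -(I * (a j : ℂ))) = fun j => -((a j : ℂ) * I) := by funext j; ring
  have e4 : (fun j : Fin k => I * (b j : ℂ)) = fun j => -(((-b j : ℝ) : ℂ) * I) := by funext j; push_cast; ring
  rw [e3, e4]
  push_cast
  rfl

/-- the last step of the estimates -/
lemma fin_est {C η σ : ℝ} (hC : 0 ≤ C) (hσ : 0 < σ) : ∃ T₁ : ℝ, 1 ≤ T₁ ∧ ∀ T : ℝ, T₁ ≤ T →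
    C * (T ^ (-(η + σ)) + (T ^ (⌈η + σ⌉₊))⁻¹) ≤ T ^ (-η) := by
  have t1 : Tendsto (fun T : ℝ => T ^ σ) atTop atTop := tendsto_rpow_atTop hσ
  obtain ⟨T₁, hT₁⟩ := eventually_atTop.mp ((t1.eventually_ge_atTop (2 * C)).and (eventually_ge_atTop 1))
  refine ⟨max 1 T₁, le_max_left _ _, fun T hT => ?_⟩
  obtain ⟨h1, h2⟩ := hT₁ T ((le_max_right _ _).trans hT)
  have hT0 : 0 < T := by linarith
  have h3 : (T ^ (⌈η + σ⌉₊))⁻¹ ≤ T ^ (-(η + σ)) := by
    rw [Real.rpow_neg hT0.le, ← Real.rpow_natCast]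
    refine inv_anti₀ (by positivity) ?_
    exact Real.rpow_le_rpow_of_exponent_le h2 (Nat.le_ceil _)
  calc C * (T ^ (-(η + σ)) + (T ^ (⌈η + σ⌉₊))⁻¹) ≤ C * (T ^ (-(η + σ)) + T ^ (-(η + σ))) := by gcongr
    _ = (2 * C) * (T ^ σ)⁻¹ * T ^ (-η) := by
        have : T ^ (-(η + σ)) = (T ^ σ)⁻¹ * T ^ (-η) := by
          rw [← Real.rpow_neg hT0.le, ← Real.rpow_add hT0]; congr 1; ring
        rw [this]; ring
    _ ≤ 1 * T ^ (-η) := by
        gcongr
        rw [← div_eq_mul_inv, div_le_one (by positivity)]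
        exact h1
    _ = _ := one_mul _

/-- criterion in terms of `Heights` -/
lemma recipe_heights {m : ℝ} {F : ℝ → Measure ℝ → Prop}
    (hH : ∀ θ₂ : ℝ, 0 ≤ θ₂ → θ₂ < m → ∃ T₁ : ℝ, ∀ T : ℝ, T₁ ≤ T → ∀ ν : Measure ℝ, F T ν →
      Heights T (T ^ (2 * m)) (T ^ (-θ₂)) ν) : Recipe m F := by
  intro k a b θ η hθ hη hm ψ hψ hc hs
  obtain ⟨g, hg⟩ : ∃ g, g = m - θ - η := ⟨_, rfl⟩
  have hg0 : 0 < g := by rw [hg]; linarith
  obtain ⟨T₁, hH⟩ := hH (m - g / 4) (by rw [hg]; linarith) (by linarith)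
  obtain ⟨C, T₂, hC, hT₂, h⟩ := R461.HM.meas (ξ1 := 2 * θ) (ψ := ψ) ⟨hψ, hc, hs⟩ (by linarith) (θ := θ + g / 4) (by linarith)
    a (fun j => -b j) ⌈η + g / 2⌉₊
  obtain ⟨T₃, hT₃, hf⟩ := fin_est (η := η) hC (show 0 < g / 2 by positivity)
  refine ⟨max T₁ (max T₂ T₃), fun T hT ν hν => ?_⟩
  have hTa := (le_max_left _ _).trans hT
  have hTb := (le_max_left _ _).trans ((le_max_right _ _).trans hT)
  have hTc := (le_max_right _ _).trans ((le_max_right _ _).trans hT)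
  have hT0 : 0 < T := (Real.exp_pos 1).trans_le (hT₂.trans hTb)
  have hT1 : 1 ≤ T := hT₃.trans hTc
  have h1 := hH T hTa ν hν
  have h2 : Heights T (T ^ (2 * θ)) (T ^ (-(m - g / 4))) ν :=
    ⟨h1.prob, h1.supp, fun m' n' hm' hn' hmn' hY => h1.small m' n' hm' hn' hmn'
      (hY.trans (Real.rpow_le_rpow_of_exponent_le hT1 (by linarith)))⟩
  obtain ⟨i1, i2⟩ := h T hTb ν h2.prob h2.supp _ (by positivity) (h2.toSmall hT0)
  rw [int_eq, main_eq]
  refine ⟨i1, i2.trans (le_trans (le_of_eq ?_) (hf T hTc))⟩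
  congr 2
  rw [← Real.rpow_add hT0]
  congr 1
  rw [hg]; ring

lemma ae_all_lt {Ω : Type} [MeasurableSpace Ω] {P : Measure Ω} {m : ℝ} (hm : 0 < m) {Q : ℝ → Ω → Prop}
    (hQ : ∀ θ₂ : ℝ, 0 ≤ θ₂ → θ₂ < m → ∀ᵐ w ∂P, Q θ₂ w) (hmono : ∀ w, ∀ x y : ℝ, x ≤ y → Q y w → Q x w) :
    ∀ᵐ w ∂P, ∀ θ₂ : ℝ, 0 ≤ θ₂ → θ₂ < m → Q θ₂ w := by
  have h1 : ∀ r : ℕ, ∀ᵐ w ∂P, Q (m * (1 - 1 / ((r : ℝ) + 1))) w := by
    intro r
    have h2 : 1 / ((r : ℝ) + 1) ≤ 1 := by
      rw [div_le_one (by positivity)]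
      have : (0:ℝ) ≤ r := by positivity
      linarith
    have h3 : 0 < 1 / ((r : ℝ) + 1) := by positivity
    exact hQ _ (mul_nonneg hm.le (by linarith)) (by nlinarith)
  rw [← ae_all_iff] at h1
  filter_upwards [h1] with w hw θ₂ h0 h2
  obtain ⟨r, hr⟩ := exists_nat_one_div_lt (show 0 < (m - θ₂) / m by
    have : 0 < m - θ₂ := by linarith
    positivity)
  refine hmono w _ _ ?_ (hw r)
  rw [lt_div_iff₀ hm] at hr
  nlinarith

/-- random samples -/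
lemma part4 {κ s : ℝ} (hκ : 0 < κ) (hs : 0 < s) (hs1 : s ≤ 1) {Ω : Type} [MeasurableSpace Ω] (P : Measure Ω)
    [IsProbabilityMeasure P] (X : ℕ → Ω → ℝ) (h : Samples s P X) :
    ∀ᵐ w ∂P, Recipe (min s (κ / 2)) (fun T ν => ∃ J : ℕ, T ^ κ ≤ J ∧ ν = unif J (fun j => T * X j w)) := by
  obtain ⟨μ, hlaw, hsup, K, hK⟩ := h.law
  have hpr : IsProbabilityMeasure μ := by
    rw [← hlaw 0]
    exact Measure.isProbabilityMeasure_map (h.meas 0).aemeasurable
  have hK0 : 0 ≤ K := by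
    have := (norm_nonneg _).trans (hK 1 (by simp))
    simpa using this
  have hm0 : 0 < min s (κ / 2) := lt_min hs (by linarith)
  have hall := ae_all_lt (P := P) hm0 (Q := fun θ₂ w => ∃ T₀ : ℝ, Real.exp 1 ≤ T₀ ∧ ∀ T : ℝ, T₀ ≤ T → ∀ J : ℕ, T ^ κ ≤ J →
      Heights T (T ^ (2 * min s (κ / 2))) (T ^ (-θ₂)) (unif J (fun j => T * X j w))) (fun θ₂ h0 h2 => by
        have h3 := lt_min_iff.1 h2
        exact U52.RH.ae_heights h.meas h.indep hlaw hsup hs hs1 hK0 hK hκ hm0.le h0 h3.1 (by linarith [h3.2]))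
    (fun w x y hxy ⟨T₀, hT₀, hT⟩ => ⟨T₀, hT₀, fun T hTT J hJ => (hT T hTT J hJ).mono (by
      have h1 : 1 ≤ T := by
        have := Real.add_one_le_exp 1
        linarith
      exact Real.rpow_le_rpow_of_exponent_le h1 (by linarith))⟩)
  filter_upwards [hall] with w hw
  refine recipe_heights fun θ₂ h0 h2 => ?_
  obtain ⟨T₀, -, hT⟩ := hw θ₂ h0 h2
  refine ⟨T₀, fun T hTT ν ⟨J, hJ, hν⟩ => ?_⟩
  subst hν
  exact hT T hTT J hJ

/-- random walks -/
lemma part5 {κ : ℝ} (hκ : 0 < κ) {Ω : Type} [MeasurableSpace Ω] (P : Measure Ω)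
    [IsProbabilityMeasure P] (X : ℕ → Ω → ℝ) (h : Steps P X) :
    ∀ᵐ w ∂P, Recipe (κ / 2) (fun T ν => ∃ u J : ℕ, T ^ κ ≤ J ∧
      (∀ j < J, ∑ i ∈ Finset.range (u + j), X i w ∈ Icc T (2 * T)) ∧
      ν = unif J (fun j => ∑ i ∈ Finset.range (u + j), X i w)) := by
  obtain ⟨μ, hlaw, hμ, hint, hpos, c, hc, hcf⟩ := h.law
  have hm0 : 0 < κ / 2 := by positivity
  have hall := ae_all_lt (P := P) hm0 (Q := fun θ₂ w => ∃ T₀ : ℝ, Real.exp 1 ≤ T₀ ∧ ∀ T : ℝ, T₀ ≤ T → ∀ u J : ℕ, T ^ κ ≤ J →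
      (∀ j < J, ∑ i ∈ Finset.range (u + j), X i w ∈ Icc T (2 * T)) →
      Heights T (T ^ (2 * (κ / 2))) (T ^ (-θ₂)) (unif J (fun j => ∑ i ∈ Finset.range (u + j), X i w))) (fun θ₂ h0 h2 => by
        exact U52.RH.ae_heightsW h.meas h.indep hlaw hint hpos hc hcf hκ hm0.le h0 (by linarith))
    (fun w x y hxy ⟨T₀, hT₀, hT⟩ => ⟨T₀, hT₀, fun T hTT u J hJ hu => (hT T hTT u J hJ hu).mono (by
      have h1 : 1 ≤ T := by
        have := Real.add_one_le_exp 1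
        linarith
      exact Real.rpow_le_rpow_of_exponent_le h1 (by linarith))⟩)
  filter_upwards [hall] with w hw
  refine recipe_heights fun θ₂ h0 h2 => ?_
  obtain ⟨T₀, -, hT⟩ := hw θ₂ h0 h2
  refine ⟨T₀, fun T hTT ν ⟨u, J, hJ, hu, hν⟩ => ?_⟩
  subst hν
  exact hT T hTT u J hJ hu

/-- The recipe, for all `k`, all shifts and all band-limited weights, with a power saving, at random heights. (1) Almost surely:
random heights `T x_j`, `j < J`, for all `J ≥ T^κ`, with independent `x_j` with one law on `[1, 2]`, with Fourier transform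
`O(|u|^(-s))`, up to the exponent `min (s, κ/2)`; the uniform law has `s = 1`. (2) Almost surely: all windows of `J ≥ T^κ`
consecutive points in `[T, 2T]` of a random walk, up to `κ/2`; the steps can be exponential (Poisson process). -/
theorem result :
    (∀ κ s : ℝ, 0 < κ → 0 < s → s ≤ 1 → ∀ (Ω : Type) [MeasurableSpace Ω] (P : Measure Ω) [IsProbabilityMeasure P]
      (X : ℕ → Ω → ℝ), Samples s P X →
        ∀ᵐ w ∂P, Recipe (min s (κ / 2)) (fun T ν => ∃ J : ℕ, T ^ κ ≤ J ∧ ν = unif J (fun j => T * X j w))) ∧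
    (∀ u : ℝ, 1 ≤ |u| → ‖∫ x : ℝ, exp (I * (u * x)) ∂(volume.restrict (Icc (1:ℝ) 2))‖ ≤ 2 * |u| ^ (-1 : ℝ)) ∧
    (∀ κ : ℝ, 0 < κ → ∀ (Ω : Type) [MeasurableSpace Ω] (P : Measure Ω) [IsProbabilityMeasure P]
      (X : ℕ → Ω → ℝ), Steps P X →
        ∀ᵐ w ∂P, Recipe (κ / 2) (fun T ν => ∃ u J : ℕ, T ^ κ ≤ J ∧
          (∀ j < J, ∑ i ∈ Finset.range (u + j), X i w ∈ Icc T (2 * T)) ∧
          ν = unif J (fun j => ∑ i ∈ Finset.range (u + j), X i w))) ∧
    (∀ r : ℝ, 0 < r → StepLaw (expMeasure r)) := by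
  refine ⟨fun κ s hκ hs hs1 Ω _ P _ X h =>
    part4 hκ hs hs1 P X h, fun u hu => ?_, fun κ hκ Ω _ P _ X h => part5 hκ P X h, fun r hr => ?_⟩
  · have hu0 : u ≠ 0 := by
      intro h
      rw [h, abs_zero] at hu
      linarith
    have hc0 : (I * (u : ℂ)) ≠ 0 := mul_ne_zero I_ne_zero (by exact_mod_cast hu0)
    rw [integral_Icc_eq_integral_Ioc, ← intervalIntegral.integral_of_le (by norm_num : (1:ℝ) ≤ 2)]
    have e1 : (∫ x in (1:ℝ)..2, exp (I * (u * x))) = (exp (I * u * (2:ℝ)) - exp (I * u * (1:ℝ))) / (I * u) := by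
      rw [← integral_exp_mul_complex hc0]
      congr 1; funext x
      congr 1; ring
    rw [e1, norm_div, norm_mul, norm_I, one_mul, Complex.norm_real, Real.norm_eq_abs, Real.rpow_neg_one,
      ← div_eq_mul_inv]
    refine div_le_div_of_nonneg_right ?_ (abs_nonneg u)
    refine (norm_sub_le _ _).trans ?_
    have h1 : ∀ y : ℝ, ‖exp (I * u * (y:ℝ))‖ = 1 := by
      intro y
      rw [show I * (u : ℂ) * (y : ℂ) = ((u * y : ℝ) : ℂ) * I by push_cast; ring, norm_exp_ofReal_mul_I]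
    rw [h1, h1]
    norm_num
  · refine ⟨isProbabilityMeasure_expMeasure hr, U52.RH.exp_integrable hr, ?_, 1 / (1 + r), by positivity,
      U52.RH.exp_cramer hr⟩
    rw [U52.RH.exp_mean hr]
    positivity

end

end Pool.Agent.Results.MP_07318d_nt.RandomHeights
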